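import Mathlib

set_option autoImplicit false

/-!
# Project QS: sampling theorem for the moments of zeta (helper188)

For every integer `k >= 1` the `2k`-th moment of zeta on the critical line is asymptotically determined by the
values of zeta on `N` lines through `0` (at equal angles), for every `N >= max (1, k - 1)`.

Statements of the independent parts. Mathlib only.
-/

open Complex MeasureTheory Set Filter Topology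

namespace Pool.Agent.W188.QS

/-- the point `1/2 + it` -/
noncomputable def cp (t : ℝ) : ℂ := 1 / 2 + (t : ℂ) * I

/-- the factor of the functional equation, `ζ(1-s) = XX s * ζ(s)` (same formula as `H345.XX`) -/
noncomputable def XX (s : ℂ) : ℂ :=
  2 * (2 * (Real.pi : ℂ)) ^ (-s) * Gamma s * Complex.cos (Real.pi * s / 2)

/-- Gaussian weight `exp (((s - 1/2 - iT)/Δ)^2)` -/
noncomputable def GG (T Δ : ℝ) (s : ℂ) : ℂ := cexp (((s - cp T) / (Δ : ℂ)) ^ 2)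

/-- the point `4 + it` -/
noncomputable def fp (t : ℝ) : ℂ := 4 + (t : ℂ) * I

/-- the Gaussian on the real line -/
noncomputable def gg (T Δ t : ℝ) : ℝ := Real.exp (-((t - T) / Δ) ^ 2)

/-! ## Tauberian part -/

/-- DYAD -/
def StDyad : Prop := ∀ a m : ℝ, 0 ≤ m → ∀ V : ℝ → ℝ, Monotone V → (∀ x, 0 ≤ V x) →
  Tendsto (fun T => (V T - V (T / 2)) / (T * Real.log T ^ m)) atTop (𝓝 (a / 2)) →
  Tendsto (fun T => V T / (T * Real.log T ^ m)) atTop (𝓝 a)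

/-- WT: weights comparable with `log` -/
def StWt : Prop := ∀ a m κ T₀ : ℝ, 0 ≤ m → 0 < κ → ∀ V D : ℝ → ℝ, Monotone V → Monotone D →
  (∀ x, 0 ≤ V x) → (∀ x, 0 ≤ D x) →
  (∀ T, T₀ ≤ T → (Real.log T - 4) * (V T - V (T / 2)) ≤ κ * (D T - D (T / 2)) ∧
    κ * (D T - D (T / 2)) ≤ Real.log T * (V T - V (T / 2))) →
  (Tendsto (fun T => V T / (T * Real.log T ^ m)) atTop (𝓝 a) ↔
    Tendsto (fun T => κ * D T / (T * Real.log T ^ (m + 1))) atTop (𝓝 a))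

/-- Gaussian average over `τ ∈ [u, v]`, cut at `τ/2 < t < 3τ/2` -/
noncomputable def PC (u v Δ t : ℝ) : ℝ :=
  1 / (√Real.pi * Δ) * ∫ τ in u..v, if τ / 2 < t ∧ t < 3 * τ / 2 then gg τ Δ t else 0

/-- PC: bounds for the Gaussian average -/
def StPC : Prop := ∀ u v Δ r t : ℝ, 0 < u → u ≤ v → v ≤ 3 * u → 0 < Δ → 0 ≤ r → r ≤ u / 4 →
  0 ≤ PC u v Δ t ∧ PC u v Δ t ≤ 1 ∧
  (t ≤ u / 2 → PC u v Δ t = 0) ∧ (3 * v / 2 ≤ t → PC u v Δ t = 0) ∧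
  (u + r ≤ t → t ≤ v - r → 1 - Real.exp (-(r / Δ) ^ 2) ≤ PC u v Δ t) ∧
  ((t ≤ u - r ∨ v + r ≤ t) → PC u v Δ t ≤ Real.exp (-(r / Δ) ^ 2))

/-- FUB: Fubini -/
def StFub : Prop := ∀ μ : Measure ℝ, (∀ x : ℝ, μ (Iic x) < ⊤) → ∀ u v Δ : ℝ, 0 < u → u ≤ v → 0 < Δ →
  Integrable (fun t => PC u v Δ t) μ ∧
  IntervalIntegrable (fun τ => ∫ t in Ioo (τ / 2) (3 * τ / 2), gg τ Δ t ∂μ) volume u v ∧
  ∫ τ in u..v, (∫ t in Ioo (τ / 2) (3 * τ / 2), gg τ Δ t ∂μ) =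
    √Real.pi * Δ * ∫ t, PC u v Δ t ∂μ

/-- SAND: deterministic sandwich inequality -/
def StSand : Prop := ∀ μ ν : Measure ℝ, (∀ x : ℝ, μ (Iic x) < ⊤) → (∀ x : ℝ, ν (Iic x) < ⊤) →
  ∀ u v Δ r E : ℝ, 0 < u → u ≤ v → v ≤ 3 * u → 0 < Δ → 0 ≤ r → r ≤ u / 4 →
  (∀ τ ∈ Icc u v, |∫ t in Ioo (τ / 2) (3 * τ / 2), gg τ Δ t ∂μ -
    ∫ t in Ioo (τ / 2) (3 * τ / 2), gg τ Δ t ∂ν| ≤ E) →
  (1 - Real.exp (-(r / Δ) ^ 2)) * ν.real (Icc (u + r) (v - r)) ≤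
    μ.real (Icc (u - r) (v + r)) + Real.exp (-(r / Δ) ^ 2) * μ.real (Ioo (u / 2) (3 * v / 2)) +
      (v - u) * E / (√Real.pi * Δ)

/-- the two measures have nearly the same Gaussian averages at the scale `T / sqrt (log T)` -/
def Near (μ ν : Measure ℝ) (q : ℝ) : Prop := ∃ B₀ : ℝ, ∀ B : ℝ, B₀ ≤ B → ∃ C T₀ : ℝ, ∀ T Δ : ℝ, T₀ ≤ T →
  0 < Δ → T ≤ 4 * B * Δ * √(Real.log T) → B * Δ * √(Real.log T) ≤ T →
  |∫ t in Ioo (T / 2) (3 * T / 2), gg T Δ t ∂μ - ∫ t in Ioo (T / 2) (3 * T / 2), gg T Δ t ∂ν| ≤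
    C * Δ * Real.log T ^ q

/-- TAUB -/
def StTaub : Prop := ∀ a m q : ℝ, 0 ≤ m → q < m → ∀ μ ν : Measure ℝ,
  (∀ x : ℝ, μ (Iic x) < ⊤) → (∀ x : ℝ, ν (Iic x) < ⊤) → Near μ ν q →
  Tendsto (fun T => μ.real (Ioc 0 T) / (T * Real.log T ^ m)) atTop (𝓝 a) →
  Tendsto (fun T => ν.real (Ioc 0 T) / (T * Real.log T ^ m)) atTop (𝓝 a)

/-- MAJ: the upper bound without any assumption on the size of `μ` beyond polynomial growth and a lower bound -/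
def StMaj : Prop := ∀ A c m q ε : ℝ, 0 < c → 0 < ε → 0 ≤ m → q < m → ∀ μ ν : Measure ℝ,
  (∀ x : ℝ, μ (Iic x) < ⊤) → (∀ x : ℝ, ν (Iic x) < ⊤) → Near μ ν q →
  (∀ᶠ T : ℝ in atTop, μ.real (Ioc 0 T) ≤ T ^ A) →
  (∀ᶠ T : ℝ in atTop, c * (T * Real.log T ^ m) ≤ μ.real (Ioc T (2 * T))) →
  ∀ᶠ T : ℝ in atTop, ν.real (Ioc T (2 * T)) ≤ (1 + ε) * μ.real (Ioc ((1 - ε) * T) ((2 + ε) * T))

/-! ## The oscillatory integral -/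

/-- the integral on the line `Re s = 4` -/
noncomputable def In (T Δ : ℝ) (n : ℕ) : ℂ := ∫ t : ℝ, (n : ℂ) ^ (-fp t) * XX (fp t) * GG T Δ (fp t)

/-- the integral after the Mellin transform, `ε > 0`, `σ = 1` or `σ = -1` -/
noncomputable def Ke (T Δ : ℝ) (n : ℕ) (σ ε : ℝ) : ℂ :=
  ∫ y : ℝ, cexp (-((ε : ℂ) + (σ : ℂ) * 2 * Real.pi * n * I) * Real.exp y) *
    cexp ((1 / 2 + (T : ℂ) * I) * y - (Δ : ℂ) ^ 2 * (y : ℂ) ^ 2 / 4)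

/-- MEL: representation of `In` as a limit -/
def StMel : Prop := ∀ T Δ : ℝ, 1 ≤ Δ → ∀ n : ℕ, 1 ≤ n →
  Tendsto (fun ε : ℝ => ((√Real.pi * Δ : ℝ) : ℂ) * (Ke T Δ n 1 ε + Ke T Δ n (-1) ε)) (𝓝[>] 0) (𝓝 (In T Δ n))

/-- KE: bounds for `Ke` -/
def StKe : Prop :=
  (∀ T Δ ε σ : ℝ, 1 ≤ Δ → 0 < ε → ∀ n : ℕ, ‖Ke T Δ n σ ε‖ ≤ 5 / Δ) ∧
  ∃ B T₀ : ℝ, 1 ≤ B ∧ ∀ T Δ ε σ : ℝ, T₀ ≤ T → Real.log T ≤ Δ → B * Δ * √(Real.log T) ≤ T → 0 < ε → σ = 1 ∨ σ = -1 →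
    ∀ n : ℕ, 2 * T ≤ n → ‖Ke T Δ n σ ε‖ ≤ T ^ (-(12 : ℝ))

/-- I3: trivial bound -/
def StI3 : Prop := ∃ C : ℝ, (∀ t : ℝ, ‖XX (fp t)‖ ≤ C * (1 + |t|) ^ 4) ∧
  ∀ T Δ : ℝ, 1 ≤ Δ → Δ ≤ T → ∀ n : ℕ, 1 ≤ n →
  Integrable (fun t : ℝ => (n : ℂ) ^ (-fp t) * XX (fp t) * GG T Δ (fp t)) ∧
  ‖In T Δ n‖ ≤ C * (n : ℝ) ^ (-(4 : ℝ)) * T ^ 5

/-- DIV: divisor functions -/
def StDiv : Prop := ∀ j : ℕ, 1 ≤ j → ∃ C : ℝ, 0 < C ∧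
  (∀ x : ℝ, 2 ≤ x → ∑ n ∈ Finset.Icc 1 ⌊x⌋₊, (((ArithmeticFunction.zeta ^ j : ArithmeticFunction ℕ) n : ℕ) : ℝ) ≤
    C * x * Real.log x ^ (j - 1)) ∧
  (∀ n : ℕ, (((ArithmeticFunction.zeta ^ j : ArithmeticFunction ℕ) n : ℕ) : ℝ) ≤ C * (n : ℝ) ^ 2) ∧
  ∀ s : ℂ, 1 < s.re → LSeriesSummable (fun n => (((ArithmeticFunction.zeta ^ j : ArithmeticFunction ℕ) n : ℕ) : ℂ)) s ∧
    riemannZeta s ^ j = ∑' n : ℕ, (((ArithmeticFunction.zeta ^ j : ArithmeticFunction ℕ) n : ℕ) : ℂ) * (n : ℂ) ^ (-s)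

/-- JJ: the main oscillatory estimate -/
def StJ : Prop := ∀ k : ℕ, 1 ≤ k → ∃ B C T₀ : ℝ, ∀ T Δ : ℝ, T₀ ≤ T → Real.log T ≤ Δ →
  B * Δ * √(Real.log T) ≤ T →
  ‖∫ t : ℝ, riemannZeta (fp t) ^ (2 * k) * XX (fp t) * GG T Δ (fp t)‖ ≤ C * T * Real.log T ^ (2 * k - 1)

end Pool.Agent.W188.QS
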