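import Mathlib
import Pool.Agent.W188.QS.Stm

set_option autoImplicit false

/-!
# Project QS, part 2: contour integration (helper188)

`w = c XX^{-N}`; the points of the critical line at which `w = 1` are the points at which `ζ(1/2+it)` lies on one of
`N` lines through `0` (at equal angles).  All statements are elementary consequences of the residue theorem for
`F G / (1 - w)` on the rectangle `-3 ≤ Re s ≤ 4`.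
-/

open Complex MeasureTheory Set Filter Topology

namespace Pool.Agent.W188.QS

/-- `w = c XX^{-N}` -/
noncomputable def ww (c : ℂ) (N : ℕ) (s : ℂ) : ℂ := c * (XX s)⁻¹ ^ N

/-- `F = ζ^{2k} XX^k` -/
noncomputable def FF (k : ℕ) (s : ℂ) : ℂ := riemannZeta s ^ (2 * k) * XX s ^ k

/-- reflection at the critical line -/
noncomputable def rf (s : ℂ) : ℂ := 1 - (starRingEnd ℂ) s

/-- the logarithmic derivative of `XX` on the critical line, about `log (t / 2π)` -/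
noncomputable def lam (t : ℝ) : ℝ := (logDeriv XX (cp t)).re

/-- the sample points -/
def PP (c : ℂ) (N : ℕ) : Set ℝ := {t | 100 < t ∧ ww c N (cp t) = 1}

/-- `|ζ(1/2+it)|^{2k}` -/
noncomputable def Zk (k : ℕ) (t : ℝ) : ℝ := ‖riemannZeta (cp t)‖ ^ (2 * k)

/-- the mass of the discrete measure at `t` -/
noncomputable def rho (k N : ℕ) (t : ℝ) : ℝ := 2 * Real.pi / N * (Zk k t / lam t)

/-- integral over the boundary of the rectangle `[a,b] × [c,d]`, counterclockwise (same formula as `SG.rectI`) -/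
noncomputable def RI (F : ℂ → ℂ) (a b c d : ℝ) : ℂ :=
  (∫ x in a..b, F (⟨x, c⟩ : ℂ)) - (∫ x in a..b, F (⟨x, d⟩ : ℂ))
    + I * (∫ y in c..d, F (⟨b, y⟩ : ℂ)) - I * (∫ y in c..d, F (⟨a, y⟩ : ℂ))

/-- `F G / (1 - w)` -/
noncomputable def RR (c : ℂ) (k N : ℕ) (T Δ : ℝ) (s : ℂ) : ℂ := FF k s * GG T Δ s / (1 - ww c N s)

/-- `F G w / (1 - w)` -/
noncomputable def QQ (c : ℂ) (k N : ℕ) (T Δ : ℝ) (s : ℂ) : ℂ := FF k s * GG T Δ s * ww c N s / (1 - ww c N s)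

/-- good heights: `w` is far from `1` on the horizontal line -/
def Good (c : ℂ) (N : ℕ) (a : ℝ) : Prop :=
  ww c N (cp a) = -1 ∧ ∀ σ : ℝ, 1 / 2 ≤ σ → σ ≤ 4 → (ww c N (⟨σ, a⟩ : ℂ)).re ≤ 0

/-- BASIC: differentiability and reflection formulas -/
def StBasic : Prop := ∀ s : ℂ, 1 ≤ s.im →
  DifferentiableAt ℂ XX s ∧ XX s ≠ 0 ∧ DifferentiableAt ℂ riemannZeta s ∧
  XX (rf s) = ((starRingEnd ℂ) (XX s))⁻¹ ∧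
  riemannZeta (rf s) = (starRingEnd ℂ) (XX s * riemannZeta s) ∧
  (∀ k : ℕ, FF k (rf s) = (starRingEnd ℂ) (FF k s)) ∧
  (∀ T Δ : ℝ, GG T Δ (rf s) = (starRingEnd ℂ) (GG T Δ s)) ∧
  ∀ (c : ℂ) (N : ℕ), ‖c‖ = 1 → ww c N (rf s) = ((starRingEnd ℂ) (ww c N s))⁻¹

/-- LINE: facts on and to the right of the critical line -/
def StLine : Prop :=
  (∀ t : ℝ, 50 ≤ t → logDeriv XX (cp t) = (lam t : ℂ) ∧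
    |lam t - Real.log (t / (2 * Real.pi))| ≤ 14 / t ∧ 1 ≤ lam t) ∧
  (∀ t : ℝ, ‖XX (cp t)‖ = 1) ∧
  (∀ t : ℝ, 1 ≤ t → (starRingEnd ℂ) (riemannZeta (cp t)) = XX (cp t) * riemannZeta (cp t)) ∧
  (∀ t : ℝ, 1 ≤ t → ∀ k : ℕ, FF k (cp t) = ((Zk k t : ℝ) : ℂ)) ∧
  (∀ T Δ t : ℝ, GG T Δ (cp t) = ((gg T Δ t : ℝ) : ℂ)) ∧
  (∀ s : ℂ, 1 / 2 < s.re → s.re ≤ 4 → 50 ≤ s.im → 1 < ‖XX s‖) ∧
  (∀ (c : ℂ) (N : ℕ) (s : ℂ), 0 < s.re → 1 ≤ s.im →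
    HasDerivAt (ww c N) (-((N : ℂ) * ww c N s * logDeriv XX s)) s) ∧
  (∀ s : ℂ, 0 < s.re → s.re ≤ 4 → 12 ≤ s.im →
    ‖logDeriv XX s - (Real.log (s.im / (2 * Real.pi)) : ℂ)‖ ≤ 14 / s.im) ∧
  (∃ K : ℝ, 0 < K ∧ ∀ s : ℂ, 1 / 2 ≤ s.re → s.re ≤ 4 → 1 ≤ s.im →
    Real.exp (-K) * s.im ^ (s.re - 1 / 2) ≤ ‖XX s‖ ∧ ‖XX s‖ ≤ Real.exp K * s.im ^ (s.re - 1 / 2)) ∧
  (∀ (c : ℂ) (N : ℕ), ‖c‖ = 1 → 1 ≤ N → ∀ x : ℝ, (PP c N ∩ Iic x).Finite)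

/-- GOOD: good heights exist -/
def StGood : Prop := ∀ N : ℕ, 1 ≤ N → ∃ T₀ : ℝ, 100 ≤ T₀ ∧ ∀ c : ℂ, ‖c‖ = 1 → ∀ x : ℝ, T₀ ≤ x →
  ∃ a : ℝ, x ≤ a ∧ a ≤ x + 1 ∧ Good c N a

/-- RES: the residue theorem -/
def StRes : Prop := ∀ (c : ℂ) (k N : ℕ) (T Δ a b : ℝ), ‖c‖ = 1 → 1 ≤ N → 0 < Δ → 100 ≤ a → a < b →
  ww c N (cp a) = -1 → ww c N (cp b) = -1 →
  RI (RR c k N T Δ) (-3) 4 a b =
    I * ((∑ᶠ t ∈ PP c N ∩ Ioo a b, rho k N t * gg T Δ t : ℝ) : ℂ)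

/-- FOLD: the four sides of the rectangle -/
def StFold : Prop := ∀ (c : ℂ) (k N : ℕ) (T Δ a b M : ℝ), ‖c‖ = 1 → 1 ≤ N → 0 < Δ → 100 ≤ a → a < b →
  Good c N a → Good c N b →
  (∀ σ : ℝ, 1 / 2 ≤ σ → σ ≤ 4 → ‖FF k (⟨σ, a⟩ : ℂ) * GG T Δ (⟨σ, a⟩ : ℂ)‖ ≤ M) →
  (∀ σ : ℝ, 1 / 2 ≤ σ → σ ≤ 4 → ‖FF k (⟨σ, b⟩ : ℂ) * GG T Δ (⟨σ, b⟩ : ℂ)‖ ≤ M) →
  ‖RI (RR c k N T Δ) (-3) 4 a b - I * ((∫ t in a..b, Zk k t * gg T Δ t : ℝ) : ℂ)‖ ≤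
    2 * ‖∫ t in a..b, QQ c k N T Δ (fp t)‖ + 22 * M

/-- EDGE: bound for `F G` at the heights near `T/2` and `3T/2` -/
def StEdge : Prop := ∀ (k : ℕ) (A : ℝ), ∃ B T₀ : ℝ, 1 ≤ B ∧ 100 ≤ T₀ ∧ ∀ T Δ : ℝ, T₀ ≤ T → 1 ≤ Δ →
  B * Δ * √(Real.log T) ≤ T → ∀ t : ℝ, (|t - T / 2| ≤ 1 ∨ |t - 3 * T / 2| ≤ 1) →
  ∀ σ : ℝ, 1 / 2 ≤ σ → σ ≤ 4 → ‖FF k (⟨σ, t⟩ : ℂ) * GG T Δ (⟨σ, t⟩ : ℂ)‖ ≤ T ^ (-A)

/-- QB: the integral of `Q` on the line `Re s = 4`, many lines -/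
def StQB : Prop := ∀ k N : ℕ, 1 ≤ k → k + 1 ≤ N → ∃ C T₀ : ℝ, 0 < C ∧ ∀ (c : ℂ) (T Δ a b : ℝ), ‖c‖ = 1 → T₀ ≤ T →
  1 ≤ Δ → |a - T / 2| ≤ 1 → |b - 3 * T / 2| ≤ 1 →
  ‖∫ t in a..b, QQ c k N T Δ (fp t)‖ ≤ C * T ^ (-(3 : ℝ)) * Δ

/-- QS: the integral of `Q` on the line `Re s = 4`, few lines -/
def StQS : Prop := ∀ k N : ℕ, 1 ≤ k → 1 ≤ N → k ≤ N + 1 → ∃ B C T₀ : ℝ, 1 ≤ B ∧ 0 < C ∧
  ∀ (c : ℂ) (T Δ a b : ℝ), ‖c‖ = 1 → T₀ ≤ T → Real.log T ≤ Δ → B * Δ * √(Real.log T) ≤ T →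
  |a - T / 2| ≤ 1 → |b - 3 * T / 2| ≤ 1 →
  ‖∫ t in a..b, QQ c k N T Δ (fp t)‖ ≤ C * (Δ + if N + 1 = k then T * Real.log T ^ (2 * k - 1) else 0)

/-- QUAD: approximate quadrature formula -/
def StQuad : Prop := ∀ k N : ℕ, 1 ≤ N → ∃ B T₀ : ℝ, 1 ≤ B ∧ 100 ≤ T₀ ∧ ∀ (c : ℂ) (T Δ E : ℝ), ‖c‖ = 1 →
  T₀ ≤ T → 1 ≤ Δ → B * Δ * √(Real.log T) ≤ T →
  (∀ a b : ℝ, |a - T / 2| ≤ 1 → |b - 3 * T / 2| ≤ 1 → ‖∫ t in a..b, QQ c k N T Δ (fp t)‖ ≤ E) →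
  |(∑ᶠ t ∈ PP c N ∩ Ioo (T / 2) (3 * T / 2), rho k N t * gg T Δ t) -
    ∫ t in (T / 2)..(3 * T / 2), Zk k t * gg T Δ t| ≤ 2 * E + T ^ (-(3 : ℝ))

/-- the measure `|ζ|^{2k} dt` on `t > 100` -/
noncomputable def muk (k : ℕ) : Measure ℝ :=
  (volume.restrict (Ioi 100)).withDensity (fun t => ENNReal.ofReal (Zk k t))

/-- the discrete measure -/
noncomputable def nuk (c : ℂ) (k N : ℕ) : Measure ℝ :=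
  Measure.sum (fun p : PP c N => ENNReal.ofReal (rho k N p) • Measure.dirac (p : ℝ))

/-- MEAS: integrals for the two measures -/
def StMeas : Prop := ∀ (c : ℂ) (k N : ℕ), ‖c‖ = 1 → 1 ≤ k → 1 ≤ N →
  (∀ x : ℝ, muk k (Iic x) < ⊤) ∧ (∀ x : ℝ, nuk c k N (Iic x) < ⊤) ∧
  (∀ (g : ℝ → ℝ), Continuous g → ∀ a b : ℝ, 100 ≤ a → a ≤ b →
    ∫ t in Ioo a b, g t ∂(muk k) = ∫ t in a..b, Zk k t * g t) ∧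
  (∀ (g : ℝ → ℝ), Continuous g → ∀ a b : ℝ,
    ∫ t in Ioo a b, g t ∂(nuk c k N) = ∑ᶠ t ∈ PP c N ∩ Ioo a b, rho k N t * g t) ∧
  (∀ a b : ℝ, 100 ≤ a → a ≤ b → (muk k).real (Ioc a b) = ∫ t in a..b, Zk k t) ∧
  (∀ b : ℝ, 100 ≤ b → (muk k).real (Ioc 0 b) = ∫ t in (100 : ℝ)..b, Zk k t) ∧
  (∀ a b : ℝ, (nuk c k N).real (Ioc a b) = ∑ᶠ t ∈ PP c N ∩ Ioc a b, rho k N t)

end Pool.Agent.W188.QS
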