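import Mathlib
import Pool.Agent.W188.QS.Stm

set_option autoImplicit false

open Complex MeasureTheory Set Filter Topology

namespace Pool.Agent.W188.QS

/-- MAJ2: as `StMaj`, but the lower bound is assumed for `ν` and the growth of `μ` only on dyadic intervals -/
def StMaj2 : Prop := ∀ A c m q ε : ℝ, 0 < c → 0 < ε → 0 ≤ m → q < m → ∀ μ ν : Measure ℝ,
  (∀ x : ℝ, μ (Iic x) < ⊤) → (∀ x : ℝ, ν (Iic x) < ⊤) → Near μ ν q →
  (∀ᶠ T : ℝ in atTop, μ.real (Ioc T (2 * T)) ≤ T ^ A) →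
  (∀ᶠ T : ℝ in atTop, c * (T * Real.log T ^ m) ≤ ν.real (Ioc T (2 * T))) →
  ∀ᶠ T : ℝ in atTop, ν.real (Ioc T (2 * T)) ≤ (1 + ε) * μ.real (Ioc ((1 - ε) * T) ((2 + ε) * T))

end Pool.Agent.W188.QS
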