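import Pool.Agent.W188.QS.Asm2
import Pool.Agent.W22.QS.Dyad
import Pool.Agent.W723.QS.Wt
import Pool.Agent.W369.QS.Sand
import Pool.Agent.W369.QS.Taub
import Pool.Agent.W334.QS.Maj
import Pool.Agent.W864.QS.PCm
import Pool.Agent.W928.QS.Fub
import Pool.Agent.W372.QS.Mel
import Pool.Agent.W975.QSKe
import Pool.Agent.W253.QS.I3
import Pool.Agent.W32.QS.Div
import Pool.Agent.W131.QS.JJ
import Pool.Agent.W22.QS.Basic
import Pool.Agent.W338.QS.Line
import Pool.Agent.W563.QS.Good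
import Pool.Agent.W290.QS.Res
import Pool.Agent.W571.QS.Fold
import Pool.Agent.W723.QS.Edge
import Pool.Agent.W327.QS.QB
import Pool.Agent.W885.QS.Qs
import Pool.Agent.W571.QS.Meas
import Pool.Agent.W975.QSQuad
import Pool.Agent.W975.QS.Maj2

set_option autoImplicit false

/-! All parts of project QS, proved by the team (see the individual files). -/

namespace Pool.Agent.W188.QS

theorem a_dyad : StDyad := Pool.Agent.W22.QS.qs_dyad
theorem a_wt : StWt := Pool.Agent.W723.QS.qs_wt a_dyad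
theorem a_sand : StSand := Pool.Agent.W369.QS.qs_sand Pool.Agent.W864.QS.qs_pc Pool.Agent.W928.QS.qs_fub
theorem a_taub : StTaub := Pool.Agent.W369.QS.Taub.qs_taub a_dyad a_sand
theorem a_maj : StMaj := Pool.Agent.W334.QS.qs_maj a_sand
theorem a_maj2 : StMaj2 := Pool.Agent.W975.QS.Maj2.qs_maj2 a_sand
theorem a_jj : StJ := Pool.Agent.W131.QSJJ.qs_jj Pool.Agent.W372.QS.qs_mel Pool.Agent.W975.QSKe.qs_ke
  Pool.Agent.W253.QS.qs_i3 Pool.Agent.W32.QS.qs_div
theorem a_line : StLine := Pool.Agent.W338.QS.qs_line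
theorem a_meas : StMeas := Pool.Agent.W571.QS.qs_meas a_line
theorem a_quad : StQuad := Pool.Agent.W975.QSQuad.qs_quad a_line (Pool.Agent.W563.QS.Good.qs_good a_line)
  (Pool.Agent.W290.QS.qs_res Pool.Agent.W22.QS.qs_basic a_line)
  (Pool.Agent.W571.QS.qs_fold Pool.Agent.W22.QS.qs_basic a_line) (Pool.Agent.W723.QS.qs_edge a_line)
theorem a_qb : StQB := Pool.Agent.W327.QS.qs_qb a_line
theorem a_qs : StQS := Pool.Agent.W885.QS.qs_qs a_line a_jj Pool.Agent.W253.QS.qs_i3

end Pool.Agent.W188.QS
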