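import Pool.Agent.W188.QS.Asm2
import Pool.Agent.W188.Mom.B4

set_option autoImplicit false

open Complex MeasureTheory Set Filter Topology

namespace Pool.Agent.W188.QS

lemma Zk_eq (k : ℕ) (t : ℝ) : Pool.Agent.W188.Mom.Z t ^ (2 * (k : ℝ)) = Zk k t := by
  have e : (2 * (k : ℝ)) = ((2 * k : ℕ) : ℝ) := by push_cast; ring
  rw [e, Real.rpow_natCast]
  rfl

lemma low {k : ℕ} (hk : 1 ≤ k) : ∃ c : ℝ, 0 < c ∧ ∀ᶠ T : ℝ in atTop,
    c * (T * Real.log T ^ ((k : ℝ) ^ 2)) ≤ ∫ t in T..(2 * T), Zk k t := by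
  have h1 : (1 : ℝ) ≤ k := by exact_mod_cast hk
  obtain ⟨c, hc, h⟩ := Pool.Agent.W188.Mom.lower (p := 2 * (k : ℝ)) (by linarith)
  refine ⟨c, hc, ?_⟩
  filter_upwards [h] with T hT
  have e : (2 * (k : ℝ)) ^ 2 / 4 = (k : ℝ) ^ 2 := by ring
  rw [e] at hT
  simp only [Zk_eq] at hT
  rwa [two_mul]

lemma grow (k : ℕ) {T : ℝ} (hT : 100 ≤ T) : ∫ t in (100 : ℝ)..T, Zk k t ≤ T ^ ((4 * k + 1 : ℕ) : ℝ) := by
  have hT0 : 0 < T := by linarith
  have h1 : ∀ t ∈ Icc (100 : ℝ) T, Zk k t ≤ T ^ (4 * k) := by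
    intro t ht
    have h2 : ‖riemannZeta (cp t)‖ ≤ t ^ 2 := Pool.Agent.W188.Mom.Z_le_sq ht.1
    have h3 : ‖riemannZeta (cp t)‖ ≤ T ^ 2 :=
      h2.trans (pow_le_pow_left₀ (by linarith [ht.1]) ht.2 2)
    calc Zk k t = ‖riemannZeta (cp t)‖ ^ (2 * k) := rfl
      _ ≤ (T ^ 2) ^ (2 * k) := pow_le_pow_left₀ (norm_nonneg _) h3 _
      _ = T ^ (4 * k) := by rw [← pow_mul]; congr 1; ring
  have h2 := intervalIntegral.integral_mono_on (μ := volume) hT ((Zk_cont k).intervalIntegrable _ _)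
    (intervalIntegrable_const (c := T ^ (4 * k))) h1
  rw [intervalIntegral.integral_const, smul_eq_mul] at h2
  refine h2.trans ?_
  rw [Real.rpow_natCast, pow_succ, mul_comm]
  exact mul_le_mul_of_nonneg_left (by linarith) (by positivity)

lemma ev_lin (x : ℝ) (hx : 0 < x) (y : ℝ) : ∀ᶠ T : ℝ in atTop, y ≤ x * T :=
  (tendsto_id.const_mul_atTop hx).eventually_ge_atTop y

theorem upper_rho (hT : StMaj) (_hL : StLine) (hM : StMeas) (hQ : StQuad) (hS : StQS)
    {c : ℂ} {k N : ℕ} (hc : ‖c‖ = 1) (hk : 1 ≤ k) (hN : 1 ≤ N) (hkN : k ≤ N + 1) {ε : ℝ}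
    (h0 : 0 < ε) (h1 : ε ≤ 1 / 2) : ∀ᶠ T : ℝ in atTop,
      SS c N (rho k N) T (2 * T) ≤ (1 + ε) * ∫ t in ((1 - ε) * T)..((2 + ε) * T), Zk k t := by
  have hn := near hM hQ hS hc hk hN hkN
  obtain ⟨m1, m2, -, -, m5, m6, m7⟩ := hM c k N hc hk hN
  obtain ⟨c0, hc0, hlow⟩ := low hk
  have h := hT ((4 * k + 1 : ℕ) : ℝ) c0 ((k : ℝ) ^ 2) (qe k N) ε hc0 h0 (by positivity)
    (qe_lt hk hN) _ _ m1 m2 hn (by
      filter_upwards [eventually_ge_atTop 100] with T hT
      rw [m6 T hT]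
      exact grow k hT) (by
      filter_upwards [hlow, eventually_ge_atTop 100] with T hT hT1
      rw [m5 T (2 * T) hT1 (by linarith)]
      exact hT)
  filter_upwards [h, eventually_ge_atTop 200] with T hT hT1
  rw [m7, m5 _ _ (by nlinarith) (by nlinarith)] at hT
  exact hT

theorem lower_rho (hT : StMaj) (hT2 : StMaj2) (hL : StLine) (hM : StMeas) (hQ : StQuad) (hS : StQS)
    {c : ℂ} {k N : ℕ} (hc : ‖c‖ = 1) (hk : 1 ≤ k) (hN : 1 ≤ N) (hkN : k ≤ N + 1) {ε : ℝ}
    (h0 : 0 < ε) (h1 : ε ≤ 1 / 2) : ∀ᶠ T : ℝ in atTop,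
      ∫ t in T..(2 * T), Zk k t ≤ (1 + ε) * SS c N (rho k N) ((1 - ε) * T) ((2 + ε) * T) := by
  have hn := near hM hQ hS hc hk hN hkN
  obtain ⟨m1, m2, -, -, m5, m6, m7⟩ := hM c k N hc hk hN
  obtain ⟨c0, hc0, hlow⟩ := low hk
  have hup := upper_rho hT hL hM hQ hS hc hk hN hkN (ε := 1 / 2) (by norm_num) (by norm_num)
  have h := hT2 ((4 * k + 2 : ℕ) : ℝ) c0 ((k : ℝ) ^ 2) (qe k N) ε hc0 h0 (by positivity)
    (qe_lt hk hN) _ _ m2 m1 hn.symm (by
      filter_upwards [hup, eventually_ge_atTop 200,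
        eventually_ge_atTop ((1 + 1 / 2) * (5 / 2) ^ (4 * k + 1))] with T hT hT1 hT2
      have hT0 : 0 < T := by linarith
      rw [m7]
      refine hT.trans ?_
      have h3 : ∫ t in ((1 - 1 / 2) * T)..((2 + 1 / 2) * T), Zk k t ≤
          ∫ t in (100 : ℝ)..((2 + 1 / 2) * T), Zk k t := by
        apply intervalIntegral.integral_mono_interval (by linarith) (by linarith) le_rfl
        · exact Filter.Eventually.of_forall fun t => Zk_nonneg k t
        · exact (Zk_cont k).intervalIntegrable _ _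
      have h4 := grow k (T := (2 + 1 / 2) * T) (by linarith)
      have h5 : ((2 + 1 / 2) * T) ^ ((4 * k + 1 : ℕ) : ℝ) = (5 / 2) ^ (4 * k + 1) * T ^ (4 * k + 1) := by
        rw [Real.rpow_natCast, mul_pow]; norm_num
      rw [h5] at h4
      calc (1 + 1 / 2) * ∫ t in ((1 - 1 / 2) * T)..((2 + 1 / 2) * T), Zk k t
          ≤ (1 + 1 / 2) * ((5 / 2) ^ (4 * k + 1) * T ^ (4 * k + 1)) := by
            apply mul_le_mul_of_nonneg_left (h3.trans h4) (by norm_num)
        _ = ((1 + 1 / 2) * (5 / 2) ^ (4 * k + 1)) * T ^ (4 * k + 1) := by ring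
        _ ≤ T * T ^ (4 * k + 1) := mul_le_mul_of_nonneg_right hT2 (by positivity)
        _ = T ^ ((4 * k + 2 : ℕ) : ℝ) := by rw [Real.rpow_natCast]; ring) (by
      filter_upwards [hlow, eventually_ge_atTop 100] with T hT hT1
      rw [m5 T (2 * T) hT1 (by linarith)]
      exact hT)
  filter_upwards [h, eventually_ge_atTop 200] with T hT hT1
  rw [m7, m5 _ _ (by linarith) (by linarith)] at hT
  exact hT

lemma ev_log_shift (δ y : ℝ) (hδ : 0 < δ) : ∀ᶠ T : ℝ in atTop, y ≤ δ * Real.log T :=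
  (Real.tendsto_log_atTop.const_mul_atTop hδ).eventually_ge_atTop y

/-- upper bound for the sum over the points in a dyadic interval -/
theorem upper (hT : StMaj) (hL : StLine) (hM : StMeas) (hQ : StQuad) (hS : StQS)
    {c : ℂ} {k N : ℕ} (hc : ‖c‖ = 1) (hk : 1 ≤ k) (hN : 1 ≤ N) (hkN : k ≤ N + 1) {ε : ℝ}
    (h0 : 0 < ε) (h1 : ε < 1) : ∀ᶠ T : ℝ in atTop,
      SS c N (Zk k) T (2 * T) ≤ (N / (2 * Real.pi) + ε) *
        (Real.log T * ∫ t in ((1 - ε) * T)..((2 + ε) * T), Zk k t) := by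
  have hN0 : (1 : ℝ) ≤ N := by exact_mod_cast hN
  have hpi := Real.pi_gt_three
  set δ : ℝ := ε / (2 * N) with hδ
  have hδ0 : 0 < δ := by positivity
  have hδ1 : δ ≤ ε / 2 := by
    rw [hδ]
    apply div_le_div_of_nonneg_left h0.le (by norm_num)
    linarith
  have hδN : N * δ = ε / 2 := by rw [hδ]; field_simp
  filter_upwards [upper_rho hT hL hM hQ hS hc hk hN hkN (ε := δ) hδ0 (by linarith),
    ev_log_shift δ (Real.log 2) hδ0, eventually_ge_atTop 200] with T h2 h3 hT1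
  have hT0 : 0 < T := by linarith
  have hlog : 0 < Real.log T := Real.log_pos (by linarith)
  obtain ⟨-, h4⟩ := weight_cmp hL (k := k) hc hN (a := T) (b := 2 * T) (by linarith)
  have hI : ∫ t in ((1 - δ) * T)..((2 + δ) * T), Zk k t ≤
      ∫ t in ((1 - ε) * T)..((2 + ε) * T), Zk k t := by
    apply intervalIntegral.integral_mono_interval
    · nlinarith
    · nlinarith
    · nlinarith
    · exact Filter.Eventually.of_forall fun t => Zk_nonneg k t
    · exact (Zk_cont k).intervalIntegrable _ _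
  set J := ∫ t in ((1 - ε) * T)..((2 + ε) * T), Zk k t with hJ
  have hJ0 : 0 ≤ J := by
    rw [hJ]
    apply intervalIntegral.integral_nonneg
    · nlinarith
    · intro t _; exact Zk_nonneg k t
  have h5 : SS c N (rho k N) T (2 * T) ≤ (1 + δ) * J :=
    h2.trans (mul_le_mul_of_nonneg_left hI (by linarith))
  have hr : ∀ t ∈ PP c N, 0 ≤ rho k N t := fun t ht => rho_nonneg hL k ht
  have h6 : Real.log (2 * T) ≤ (1 + δ) * Real.log T := by
    rw [Real.log_mul (by norm_num) hT0.ne']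
    linarith
  have h7 : 2 * Real.pi / N * SS c N (Zk k) T (2 * T) ≤ ((1 + δ) * Real.log T) * ((1 + δ) * J) := by
    refine h4.trans ?_
    exact mul_le_mul h6 h5 (SS_nonneg hr _ _) (by positivity)
  have h8 : SS c N (Zk k) T (2 * T) = N / (2 * Real.pi) * (2 * Real.pi / N * SS c N (Zk k) T (2 * T)) := by
    field_simp
  rw [h8]
  have hLJ : 0 ≤ Real.log T * J := by positivity
  calc N / (2 * Real.pi) * (2 * Real.pi / N * SS c N (Zk k) T (2 * T))
      ≤ N / (2 * Real.pi) * (((1 + δ) * Real.log T) * ((1 + δ) * J)) :=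
        mul_le_mul_of_nonneg_left h7 (by positivity)
    _ = (N / (2 * Real.pi) * (1 + δ) ^ 2) * (Real.log T * J) := by ring
    _ ≤ (N / (2 * Real.pi) + ε) * (Real.log T * J) := by
        apply mul_le_mul_of_nonneg_right _ hLJ
        have e1 : (N : ℝ) / (2 * Real.pi) * (1 + δ) ^ 2 = N / (2 * Real.pi) + (N * δ) * (2 + δ) / (2 * Real.pi) := by
          field_simp; ring
        rw [e1, hδN]
        have : ε / 2 * (2 + δ) / (2 * Real.pi) ≤ ε := by
          rw [div_le_iff₀ (by positivity)]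
          nlinarith
        linarith

/-- lower bound for the sum over the points in a dyadic interval -/
theorem lower (hT : StMaj) (hT2 : StMaj2) (hL : StLine) (hM : StMeas) (hQ : StQuad) (hS : StQS)
    {c : ℂ} {k N : ℕ} (hc : ‖c‖ = 1) (hk : 1 ≤ k) (hN : 1 ≤ N) (hkN : k ≤ N + 1) {ε : ℝ}
    (h0 : 0 < ε) (h1 : ε < 1) : ∀ᶠ T : ℝ in atTop,
      (N / (2 * Real.pi) - ε) * (Real.log T * ∫ t in T..(2 * T), Zk k t) ≤
        SS c N (Zk k) ((1 - ε) * T) ((2 + ε) * T) := by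
  have hN0 : (1 : ℝ) ≤ N := by exact_mod_cast hN
  have hpi := Real.pi_gt_three
  set δ : ℝ := ε / (2 * N) with hδ
  have hδ0 : 0 < δ := by positivity
  have hδ1 : δ ≤ ε / 2 := by
    rw [hδ]
    apply div_le_div_of_nonneg_left h0.le (by norm_num)
    linarith
  have hδN : N * δ = ε / 2 := by rw [hδ]; field_simp
  filter_upwards [lower_rho hT hT2 hL hM hQ hS hc hk hN hkN (ε := δ) hδ0 (by linarith),
    ev_log_shift δ 4 hδ0, eventually_ge_atTop 200] with T h2 h3 hT1
  have hT0 : 0 < T := by linarith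
  have hlog : 0 < Real.log T := Real.log_pos (by linarith)
  have hr : ∀ t ∈ PP c N, 0 ≤ rho k N t := fun t ht => rho_nonneg hL k ht
  have hz : ∀ t ∈ PP c N, 0 ≤ Zk k t := fun t _ => Zk_nonneg k t
  obtain ⟨h4, -⟩ := weight_cmp hL (k := k) hc hN (a := (1 - δ) * T) (b := (2 + δ) * T) (by nlinarith)
  have hD : SS c N (Zk k) ((1 - δ) * T) ((2 + δ) * T) ≤ SS c N (Zk k) ((1 - ε) * T) ((2 + ε) * T) := by
    apply SS_mono hL hc hN hz
    · nlinarith
    · nlinarith
  refine le_trans ?_ hD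
  set D := SS c N (Zk k) ((1 - δ) * T) ((2 + δ) * T) with hDd
  set R := SS c N (rho k N) ((1 - δ) * T) ((2 + δ) * T) with hRd
  set J := ∫ t in T..(2 * T), Zk k t with hJ
  have hR0 : 0 ≤ R := SS_nonneg hr _ _
  have hD0 : 0 ≤ D := SS_nonneg hz _ _
  have hJ0 : 0 ≤ J := by
    rw [hJ]
    apply intervalIntegral.integral_nonneg (by linarith)
    intro t _; exact Zk_nonneg k t
  have h6 : (1 - δ) * Real.log T ≤ Real.log ((1 - δ) * T) - 3 := by
    have h7 : Real.log (T / 2) ≤ Real.log ((1 - δ) * T) := Real.log_le_log (by positivity) (by nlinarith)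
    rw [Real.log_div hT0.ne' (by norm_num)] at h7
    have := Real.log_two_lt_d9
    linarith
  have h7 : (1 - δ) * Real.log T * R ≤ 2 * Real.pi / N * D :=
    (mul_le_mul_of_nonneg_right h6 hR0).trans h4
  -- multiply by N / 2π
  have h8 : N / (2 * Real.pi) * ((1 - δ) * Real.log T * R) ≤ D := by
    have := mul_le_mul_of_nonneg_left h7 (by positivity : 0 ≤ (N : ℝ) / (2 * Real.pi))
    refine this.trans (le_of_eq ?_)
    field_simp
  refine le_trans ?_ h8
  have hx : 0 < N / (2 * Real.pi) := by positivity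
  -- (N/2π - ε) L J ≤ N/2π (1-δ) L R, J ≤ (1+δ) R
  rcases le_or_gt (N / (2 * Real.pi)) ε with hle | hgt
  · have : (N / (2 * Real.pi) - ε) * (Real.log T * J) ≤ 0 :=
      mul_nonpos_of_nonpos_of_nonneg (by linarith) (by positivity)
    refine this.trans ?_
    have : 0 ≤ 1 - δ := by linarith
    positivity
  · have h9 : (N / (2 * Real.pi) - ε) * (Real.log T * J) ≤
        (N / (2 * Real.pi) - ε) * (Real.log T * ((1 + δ) * R)) := by
      apply mul_le_mul_of_nonneg_left _ (by linarith)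
      exact mul_le_mul_of_nonneg_left h2 hlog.le
    refine h9.trans ?_
    have e1 : (N / (2 * Real.pi) - ε) * (Real.log T * ((1 + δ) * R)) =
      ((N / (2 * Real.pi) - ε) * (1 + δ)) * (Real.log T * R) := by ring
    have e2 : N / (2 * Real.pi) * ((1 - δ) * Real.log T * R) =
      (N / (2 * Real.pi) * (1 - δ)) * (Real.log T * R) := by ring
    rw [e1, e2]
    apply mul_le_mul_of_nonneg_right _ (by positivity)
    have e3 : (N : ℝ) / (2 * Real.pi) * (1 - δ) = N / (2 * Real.pi) - (N * δ) / (2 * Real.pi) := by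
      field_simp
    have e4 : ((N : ℝ) / (2 * Real.pi) - ε) * (1 + δ) =
      N / (2 * Real.pi) + (N * δ) / (2 * Real.pi) - ε - ε * δ := by
      field_simp
      ring
    rw [e3, e4, hδN]
    have : ε / 2 / (2 * Real.pi) ≤ ε / 12 := by
      rw [div_div]
      apply div_le_div_of_nonneg_left h0.le (by norm_num)
      linarith
    have h10 : 0 ≤ ε * δ := by positivity
    linarith

end Pool.Agent.W188.QS
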