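import Pool.Agent.W188.QS.Asm5
import Pool.Agent.W188.QS.Asm3

set_option autoImplicit false

open Complex MeasureTheory Set Filter Topology

namespace Pool.Agent.W188.QS

theorem qs_grow : StGrow := by
  intro c k N hc hk hN hkN
  obtain ⟨m1, m2, -, -, m5, m6, m7⟩ := a_meas c k N hc hk hN
  have hup := upper_rho a_maj a_line a_meas a_quad a_qs hc hk hN hkN (ε := 1 / 2) (by norm_num) (by norm_num)
  set F : ℝ → ℝ := fun T => (nuk c k N).real (Ioc 0 T) with hF
  have hfin : ∀ a b : ℝ, nuk c k N (Ioc a b) ≠ ⊤ := fun a b =>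
    ((measure_mono (fun _ h => h.2 : Ioc a b ⊆ Iic b)).trans_lt (m2 b)).ne
  have hmono : ∀ a b : ℝ, a ≤ b → F a ≤ F b := fun a b hab =>
    measureReal_mono (Ioc_subset_Ioc_right hab) (hfin 0 b)
  have hadd : ∀ a b : ℝ, 0 ≤ a → a ≤ b → F b = F a + (nuk c k N).real (Ioc a b) := by
    intro a b ha hab
    rw [hF]
    simp only
    rw [← measureReal_union (by
      rw [Set.disjoint_left]
      rintro x ⟨_, h1⟩ ⟨h2, _⟩
      linarith) measurableSet_Ioc (hfin _ _) (hfin _ _), Ioc_union_Ioc_eq_Ioc ha hab]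
  have hd : ∀ᶠ T : ℝ in atTop, (nuk c k N).real (Ioc T (2 * T)) ≤ T ^ (4 * k + 2) := by
    filter_upwards [hup, eventually_ge_atTop 200,
        eventually_ge_atTop ((1 + 1 / 2) * (5 / 2) ^ (4 * k + 1))] with T hT hT1 hT2
    have hT0 : 0 < T := by linarith
    rw [nuk_real a_meas hc hk hN]
    refine hT.trans ?_
    have h3 : ∫ t in ((1 - 1 / 2) * T)..((2 + 1 / 2) * T), Zk k t ≤
        ∫ t in (100 : ℝ)..((2 + 1 / 2) * T), Zk k t := by
      apply intervalIntegral.integral_mono_interval (by linarith) (by linarith) le_rfl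
      · exact Filter.Eventually.of_forall fun t => Zk_nonneg k t
      · exact (Zk_cont k).intervalIntegrable _ _
    have h4 := grow k (T := (2 + 1 / 2) * T) (by linarith)
    have h5 : ((2 + 1 / 2) * T) ^ ((4 * k + 1 : ℕ) : ℝ) = (5 / 2) ^ (4 * k + 1) * T ^ (4 * k + 1) := by
      rw [Real.rpow_natCast, mul_pow]; norm_num
    rw [h5] at h4
    calc (1 + 1 / 2) * ∫ t in ((1 - 1 / 2) * T)..((2 + 1 / 2) * T), Zk k t
        ≤ (1 + 1 / 2) * ((5 / 2) ^ (4 * k + 1) * T ^ (4 * k + 1)) := by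
          apply mul_le_mul_of_nonneg_left (h3.trans h4) (by norm_num)
      _ = ((1 + 1 / 2) * (5 / 2) ^ (4 * k + 1)) * T ^ (4 * k + 1) := by ring
      _ ≤ T * T ^ (4 * k + 1) := mul_le_mul_of_nonneg_right hT2 (by positivity)
      _ = T ^ (4 * k + 2) := by ring
  obtain ⟨T₀, hT₀⟩ := eventually_atTop.1 hd
  set T₁ := max T₀ 1 with hT₁
  have hT₁1 : 1 ≤ T₁ := le_max_right _ _
  have key : ∀ n : ℕ, ∀ T : ℝ, 0 ≤ T → T ≤ 2 ^ n * (2 * T₁) → F T ≤ F (2 * T₁) + T ^ (4 * k + 2) := by
    intro n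
    induction n with
    | zero =>
      intro T h0 h1
      have := hmono T (2 * T₁) (by simpa using h1)
      have h2 : 0 ≤ T ^ (4 * k + 2) := by positivity
      linarith
    | succ n ih =>
      intro T h0 h1
      rcases le_or_gt T (2 * T₁) with h2 | h2
      · have := hmono T (2 * T₁) h2
        have h2 : 0 ≤ T ^ (4 * k + 2) := by positivity
        linarith
      · have h3 := ih (T / 2) (by linarith) (by rw [pow_succ] at h1; linarith)
        have h4 := hT₀ (T / 2) (by have := le_max_left T₀ 1; linarith)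
        have h5 := hadd (T / 2) (2 * (T / 2)) (by linarith) (by linarith)
        rw [mul_div_cancel₀ T (two_ne_zero)] at h4 h5
        have h6 : (T / 2) ^ (4 * k + 2) ≤ T ^ (4 * k + 2) / 2 := by
          rw [div_pow]
          apply div_le_div_of_nonneg_left (by positivity) (by norm_num)
          calc (2 : ℝ) = 2 ^ 1 := by norm_num
            _ ≤ 2 ^ (4 * k + 2) := pow_le_pow_right₀ (by norm_num) (by omega)
        linarith
  refine ⟨((4 * k + 3 : ℕ) : ℝ), ?_, ?_⟩
  · filter_upwards [eventually_ge_atTop (F (2 * T₁) + 1), eventually_ge_atTop 1] with T h1 h2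
    obtain ⟨n, hn⟩ := pow_unbounded_of_one_lt T (one_lt_two)
    have h3 := key n T (by linarith) (by nlinarith [pow_pos (zero_lt_two : (0 : ℝ) < 2) n])
    have hF0 : 0 ≤ F (2 * T₁) := measureReal_nonneg
    have h4 : 1 ≤ T ^ (4 * k + 2) := one_le_pow₀ h2
    have h5 : F T ≤ T ^ ((4 * k + 3 : ℕ) : ℝ) := by
      rw [Real.rpow_natCast]
      calc F T ≤ F (2 * T₁) + T ^ (4 * k + 2) := h3
        _ ≤ F (2 * T₁) * T ^ (4 * k + 2) + T ^ (4 * k + 2) := by nlinarith
        _ = (F (2 * T₁) + 1) * T ^ (4 * k + 2) := by ring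
        _ ≤ T * T ^ (4 * k + 2) := mul_le_mul_of_nonneg_right h1 (by positivity)
        _ = T ^ (4 * k + 3) := by ring
    exact h5
  · filter_upwards [eventually_ge_atTop 100] with T h1
    rw [m6 T h1]
    refine (grow k h1).trans ?_
    rw [Real.rpow_natCast, Real.rpow_natCast]
    exact pow_le_pow_right₀ (by linarith) (by omega)

end Pool.Agent.W188.QS
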