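import Pool.Agent.W188.QS.Asm5
import Pool.Agent.W721.QS.Sharp
import Pool.Agent.W108.QS.Rem
import Pool.Agent.W188.QS.Grow

set_option autoImplicit false

/-! All parts of project QS5, proved by the team (see the individual files). -/

namespace Pool.Agent.W188.QS

theorem a_sharp : StSharp := Pool.Agent.W721.QS.qs_sharp Pool.Agent.W928.QS.qs_fub Pool.Agent.W864.QS.qs_pc
theorem a_rem : StRem := Pool.Agent.W108.QS.qs_rem a_sharp
theorem a_grow : StGrow := qs_grow

end Pool.Agent.W188.QS
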