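import Mathlib
import Pool.Agent.W188.QS.Stm2
import Pool.Agent.W188.QS.Stm3

set_option autoImplicit false

open Complex MeasureTheory Set Filter Topology

namespace Pool.Agent.W188.QS

/-- the exponent of the logarithm in the error term -/
noncomputable def qe (k N : ℕ) : ℝ := if N + 1 = k then 2 * k - 1 / 2 else 0

lemma qe_lt {k N : ℕ} (hk : 1 ≤ k) (hN : 1 ≤ N) : qe k N < (k : ℝ) ^ 2 := by
  unfold qe
  split_ifs with h
  · have : (2 : ℝ) ≤ k := by exact_mod_cast (by omega : 2 ≤ k)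
    nlinarith
  · have : (1 : ℝ) ≤ k := by exact_mod_cast hk
    positivity

lemma ev_log_le (B : ℝ) : ∀ᶠ T : ℝ in atTop, 4 * B * Real.log T * √(Real.log T) ≤ T := by
  have h1 := (isLittleO_log_rpow_rpow_atTop 2 (one_pos)).def (c := 1 / (4 * |B| + 1)) (by positivity)
  filter_upwards [h1, eventually_ge_atTop 3] with T h2 hT
  have hT0 : 0 < T := by linarith
  have hL : 1 ≤ Real.log T := by
    rw [Real.le_log_iff_exp_le hT0]
    have := Real.exp_one_lt_d9
    linarith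
  rw [Real.norm_of_nonneg (by positivity), Real.rpow_one, Real.norm_of_nonneg hT0.le] at h2
  have h3 : √(Real.log T) ≤ Real.log T := by
    rw [Real.sqrt_le_left (by linarith)]
    nlinarith
  have h4 : Real.log T * √(Real.log T) ≤ Real.log T ^ (2 : ℝ) := by
    rw [Real.rpow_two, sq]
    exact mul_le_mul_of_nonneg_left h3 (by linarith)
  have h5 : 4 * B * Real.log T * √(Real.log T) ≤ 4 * |B| * Real.log T ^ (2 : ℝ) := by
    calc 4 * B * Real.log T * √(Real.log T) = 4 * B * (Real.log T * √(Real.log T)) := by ring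
      _ ≤ 4 * |B| * (Real.log T * √(Real.log T)) := by
          apply mul_le_mul_of_nonneg_right _ (by positivity)
          linarith [le_abs_self B]
      _ ≤ _ := mul_le_mul_of_nonneg_left h4 (by positivity)
  refine h5.trans ?_
  have h6 : 4 * |B| * Real.log T ^ (2 : ℝ) ≤ 4 * |B| * (1 / (4 * |B| + 1) * T) :=
    mul_le_mul_of_nonneg_left h2 (by positivity)
  refine h6.trans ?_
  rw [← mul_assoc]
  have h7 : 4 * |B| * (1 / (4 * |B| + 1)) ≤ 1 := by
    rw [mul_one_div, div_le_one (by positivity)]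
    linarith
  nlinarith

lemma gg_cont (T Δ : ℝ) : Continuous (gg T Δ) := by
  unfold gg
  fun_prop

theorem near (hM : StMeas) (hQ : StQuad) (hS : StQS) {c : ℂ} {k N : ℕ} (hc : ‖c‖ = 1)
    (hk : 1 ≤ k) (hN : 1 ≤ N) (hkN : k ≤ N + 1) : Near (muk k) (nuk c k N) (qe k N) := by
  obtain ⟨B1, T1, hB1, hT1, h1⟩ := hQ k N hN
  obtain ⟨B2, C2, T2, hB2, hC2, h2⟩ := hS k N hk hN hkN
  obtain ⟨-, -, m3, m4, -, -, -⟩ := hM c k N hc hk hN
  refine ⟨max B1 B2, fun B hB => ?_⟩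
  have hBB1 : B1 ≤ B := (le_max_left _ _).trans hB
  have hBB2 : B2 ≤ B := (le_max_right _ _).trans hB
  have hB0 : 1 ≤ B := hB1.trans hBB1
  obtain ⟨T3, h3⟩ := eventually_atTop.1 (ev_log_le B)
  refine ⟨2 * C2 * (1 + 4 * B) + 1, max (max T1 T2) (max T3 200), fun T Δ hT hΔ hu hl => ?_⟩
  have hTT1 : T1 ≤ T := ((le_max_left _ _).trans (le_max_left _ _)).trans hT
  have hTT2 : T2 ≤ T := ((le_max_right _ _).trans (le_max_left _ _)).trans hT
  have hTT3 : T3 ≤ T := ((le_max_left _ _).trans (le_max_right _ _)).trans hT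
  have hT200 : 200 ≤ T := ((le_max_right _ _).trans (le_max_right _ _)).trans hT
  have hT0 : 0 < T := by linarith
  have hL : 1 ≤ Real.log T := by
    rw [Real.le_log_iff_exp_le hT0]
    have := Real.exp_one_lt_d9
    linarith
  have hs0 : 0 < √(Real.log T) := Real.sqrt_pos.2 (by linarith)
  have hLD : Real.log T ≤ Δ := by
    have h4 := (h3 T hTT3).trans hu
    have h5 : 4 * B * Real.log T * √(Real.log T) = Real.log T * (4 * B * √(Real.log T)) := by ring
    have h6 : 4 * B * Δ * √(Real.log T) = Δ * (4 * B * √(Real.log T)) := by ring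
    rw [h5, h6] at h4
    exact le_of_mul_le_mul_right h4 (by positivity)
  have hD1 : 1 ≤ Δ := hL.trans hLD
  have hb1 : B1 * Δ * √(Real.log T) ≤ T := by
    refine le_trans ?_ hl
    gcongr
  have hb2 : B2 * Δ * √(Real.log T) ≤ T := by
    refine le_trans ?_ hl
    gcongr
  have h7 := h1 c T Δ _ hc hTT1 hD1 hb1
    (fun a b ha hb => h2 c T Δ a b hc hTT2 hLD hb2 ha hb)
  rw [m3 _ (gg_cont T Δ) _ _ (by linarith) (by linarith), m4 _ (gg_cont T Δ), abs_sub_comm]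
  refine h7.trans ?_
  have hT3 : T ^ (-(3 : ℝ)) ≤ 1 := Real.rpow_le_one_of_one_le_of_nonpos (by linarith) (by norm_num)
  unfold qe
  split_ifs with hN1
  · -- N + 1 = k
    have hk2 : 2 ≤ k := by omega
    have hpow : Real.log T ^ (2 * k - 1) * √(Real.log T) = Real.log T ^ (2 * (k : ℝ) - 1 / 2) := by
      rw [Real.sqrt_eq_rpow, ← Real.rpow_natCast, ← Real.rpow_add (by linarith)]
      congr 1
      rw [Nat.cast_sub (by omega)]
      push_cast
      ring
    have hp1 : 1 ≤ Real.log T ^ (2 * (k : ℝ) - 1 / 2) := by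
      apply Real.one_le_rpow hL
      have : (2 : ℝ) ≤ k := by exact_mod_cast hk2
      linarith
    have h8 : T * Real.log T ^ (2 * k - 1) ≤ 4 * B * Δ * Real.log T ^ (2 * (k : ℝ) - 1 / 2) := by
      rw [← hpow]
      calc T * Real.log T ^ (2 * k - 1) ≤ (4 * B * Δ * √(Real.log T)) * Real.log T ^ (2 * k - 1) :=
            mul_le_mul_of_nonneg_right hu (by positivity)
        _ = _ := by ring
    set P := Real.log T ^ (2 * (k : ℝ) - 1 / 2)
    have h9 : Δ ≤ Δ * P := le_mul_of_one_le_right hΔ.le hp1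
    have h10 : (1 : ℝ) ≤ Δ * P := hD1.trans h9
    have h11 : 2 * (C2 * (Δ + T * Real.log T ^ (2 * k - 1))) ≤ 2 * (C2 * (Δ * P + 4 * B * Δ * P)) := by
      gcongr
    calc 2 * (C2 * (Δ + T * Real.log T ^ (2 * k - 1))) + T ^ (-(3 : ℝ))
        ≤ 2 * (C2 * (Δ * P + 4 * B * Δ * P)) + Δ * P := by linarith
      _ = _ := by ring
  · rw [Real.rpow_zero, mul_one, add_zero]
    have h8 : 0 ≤ 2 * C2 * (4 * B) * Δ := by positivity
    nlinarith

lemma Near.symm {μ ν : Measure ℝ} {q : ℝ} (h : Near μ ν q) : Near ν μ q := by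
  obtain ⟨B₀, h⟩ := h
  refine ⟨B₀, fun B hB => ?_⟩
  obtain ⟨C, T₀, h⟩ := h B hB
  refine ⟨C, T₀, fun T Δ h1 h2 h3 h4 => ?_⟩
  rw [abs_sub_comm]
  exact h T Δ h1 h2 h3 h4

/-- the exact quadrature formula -/
theorem exact (hQ : StQuad) (hS : StQB) {k N : ℕ} (hk : 1 ≤ k) (hN : k + 1 ≤ N) :
    ∃ B C T₀ : ℝ, 1 ≤ B ∧ 0 < C ∧ ∀ (c : ℂ) (T Δ : ℝ), ‖c‖ = 1 → T₀ ≤ T → 1 ≤ Δ →
      B * Δ * √(Real.log T) ≤ T →
      |(∑ᶠ t ∈ PP c N ∩ Ioo (T / 2) (3 * T / 2), rho k N t * gg T Δ t) -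
        ∫ t in (T / 2)..(3 * T / 2), Zk k t * gg T Δ t| ≤ C * T ^ (-(2 : ℝ)) := by
  obtain ⟨B1, T1, hB1, hT1, h1⟩ := hQ k N (by omega)
  obtain ⟨C2, T2, hC2, h2⟩ := hS k N hk hN
  refine ⟨B1, 2 * C2 + 1, max (max T1 T2) 3, hB1, by positivity, fun c T Δ hc hT hD hB => ?_⟩
  have hTT1 : T1 ≤ T := ((le_max_left _ _).trans (le_max_left _ _)).trans hT
  have hTT2 : T2 ≤ T := ((le_max_right _ _).trans (le_max_left _ _)).trans hT
  have hT3 : 3 ≤ T := (le_max_right _ _).trans hT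
  have hT0 : 0 < T := by linarith
  have hL : 1 ≤ Real.log T := by
    rw [Real.le_log_iff_exp_le hT0]
    have := Real.exp_one_lt_d9
    linarith
  have hs1 : 1 ≤ √(Real.log T) := Real.one_le_sqrt.2 hL
  have hDT : Δ ≤ T := by
    calc Δ = 1 * Δ * 1 := by ring
      _ ≤ B1 * Δ * √(Real.log T) := by gcongr
      _ ≤ T := hB
  refine (h1 c T Δ _ hc hTT1 hD hB (fun a b ha hb => h2 c T Δ a b hc hTT2 hD ha hb)).trans ?_
  have e1 : T ^ (-(3 : ℝ)) * T = T ^ (-(2 : ℝ)) := by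
    rw [← Real.rpow_add_one hT0.ne']; norm_num
  have e2 : T ^ (-(3 : ℝ)) ≤ T ^ (-(2 : ℝ)) :=
    Real.rpow_le_rpow_of_exponent_le (by linarith) (by norm_num)
  have e3 : C2 * T ^ (-(3 : ℝ)) * Δ ≤ C2 * T ^ (-(2 : ℝ)) := by
    rw [← e1, ← mul_assoc]
    gcongr
  linarith

end Pool.Agent.W188.QS
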