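import Mathlib
import Pool.Agent.W188.QS.Asm1

set_option autoImplicit false

open Complex MeasureTheory Set Filter Topology

namespace Pool.Agent.W188.QS

/-- sums over the sample points in `(a, b]` -/
noncomputable def SS (c : ℂ) (N : ℕ) (f : ℝ → ℝ) (a b : ℝ) : ℝ := ∑ᶠ t ∈ PP c N ∩ Ioc a b, f t

lemma PP_fin (hL : StLine) {c : ℂ} {N : ℕ} (hc : ‖c‖ = 1) (hN : 1 ≤ N) (a b : ℝ) :
    (PP c N ∩ Ioc a b).Finite :=
  (hL.2.2.2.2.2.2.2.2.2 c N hc hN b).subset (inter_subset_inter_right _ (fun _ h => h.2))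

lemma SS_mono (hL : StLine) {c : ℂ} {N : ℕ} (hc : ‖c‖ = 1) (hN : 1 ≤ N) {f : ℝ → ℝ}
    (hf : ∀ t ∈ PP c N, 0 ≤ f t) {a b a' b' : ℝ} (h1 : a' ≤ a) (h2 : b ≤ b') :
    SS c N f a b ≤ SS c N f a' b' := by
  unfold SS
  rw [finsum_mem_eq_finite_toFinset_sum _ (PP_fin hL hc hN a b),
    finsum_mem_eq_finite_toFinset_sum _ (PP_fin hL hc hN a' b')]
  apply Finset.sum_le_sum_of_subset_of_nonneg
  · rw [Set.Finite.toFinset_subset_toFinset]
    exact inter_subset_inter_right _ (Ioc_subset_Ioc h1 h2)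
  · intro t ht _
    rw [Set.Finite.mem_toFinset] at ht
    exact hf t ht.1

lemma SS_nonneg {c : ℂ} {N : ℕ} {f : ℝ → ℝ}
    (hf : ∀ t ∈ PP c N, 0 ≤ f t) (a b : ℝ) : 0 ≤ SS c N f a b := by
  unfold SS
  exact finsum_mem_induction (fun x : ℝ => 0 ≤ x) le_rfl (fun _ _ => add_nonneg) (fun t ht => hf t ht.1)

lemma SS_le (hL : StLine) {c : ℂ} {N : ℕ} (hc : ‖c‖ = 1) (hN : 1 ≤ N) {f g : ℝ → ℝ} {a b : ℝ}
    (h : ∀ t ∈ PP c N, a < t → t ≤ b → f t ≤ g t) : SS c N f a b ≤ SS c N g a b := by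
  unfold SS
  rw [finsum_mem_eq_finite_toFinset_sum _ (PP_fin hL hc hN a b),
    finsum_mem_eq_finite_toFinset_sum _ (PP_fin hL hc hN a b)]
  apply Finset.sum_le_sum
  intro t ht
  rw [Set.Finite.mem_toFinset] at ht
  exact h t ht.1 ht.2.1 ht.2.2

lemma SS_mul (hL : StLine) {c : ℂ} {N : ℕ} (hc : ‖c‖ = 1) (hN : 1 ≤ N) (x : ℝ) (f : ℝ → ℝ) (a b : ℝ) :
    SS c N (fun t => x * f t) a b = x * SS c N f a b := by
  unfold SS
  rw [finsum_mem_eq_finite_toFinset_sum _ (PP_fin hL hc hN a b),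
    finsum_mem_eq_finite_toFinset_sum _ (PP_fin hL hc hN a b), Finset.mul_sum]

lemma SS_add (hL : StLine) {c : ℂ} {N : ℕ} (hc : ‖c‖ = 1) (hN : 1 ≤ N) (f : ℝ → ℝ) {a b d : ℝ}
    (h1 : a ≤ b) (h2 : b ≤ d) : SS c N f a d = SS c N f a b + SS c N f b d := by
  unfold SS
  rw [← finsum_mem_union _ (PP_fin hL hc hN a b) (PP_fin hL hc hN b d), ← inter_union_distrib_left,
    Ioc_union_Ioc_eq_Ioc h1 h2]
  rw [Set.disjoint_left]
  intro t ht ht'
  exact absurd ht.2.2 (not_le.2 ht'.2.1)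

lemma Zk_nonneg (k : ℕ) (t : ℝ) : 0 ≤ Zk k t := by unfold Zk; positivity

lemma lam_bounds (hL : StLine) {t : ℝ} (ht : 100 < t) :
    1 ≤ lam t ∧ Real.log t - 3 ≤ lam t ∧ lam t ≤ Real.log t := by
  obtain ⟨-, h2, h3⟩ := hL.1 t (by linarith)
  have ht0 : 0 < t := by linarith
  rw [Real.log_div ht0.ne' (by positivity), abs_le] at h2
  have h4 : 14 / t ≤ 14 / 100 := by
    apply div_le_div_of_nonneg_left (by norm_num) (by norm_num) ht.le
  have hpi1 := Real.pi_gt_three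
  have hpi2 := Real.pi_lt_d2
  have h5 : Real.log (2 * Real.pi) ≤ 3 * Real.log 2 := by
    have h8 : Real.log 8 = 3 * Real.log 2 := by
      rw [show (8 : ℝ) = 2 ^ 3 by norm_num, Real.log_pow]; norm_num
    rw [← h8]
    apply Real.log_le_log (by positivity)
    linarith
  have h7 := Real.log_two_lt_d9
  have h6 : 1 ≤ Real.log (2 * Real.pi) := by
    rw [Real.le_log_iff_exp_le (by positivity)]
    have := Real.exp_one_lt_d9
    linarith
  refine ⟨h3, by linarith [h2.1], by linarith [h2.2]⟩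

lemma rho_eq (k N : ℕ) (t : ℝ) : rho k N t = 2 * Real.pi / N * (Zk k t / lam t) := rfl

lemma rho_nonneg (hL : StLine) {c : ℂ} {N : ℕ} (k : ℕ) {t : ℝ} (ht : t ∈ PP c N) : 0 ≤ rho k N t := by
  rw [rho_eq]
  have := (lam_bounds hL ht.1).1
  have := Zk_nonneg k t
  positivity

lemma nuk_real (hM : StMeas) {c : ℂ} {k N : ℕ} (hc : ‖c‖ = 1) (hk : 1 ≤ k) (hN : 1 ≤ N) (a b : ℝ) :
    (nuk c k N).real (Ioc a b) = SS c N (rho k N) a b :=
  (hM c k N hc hk hN).2.2.2.2.2.2 a b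

/-- comparison of the weights -/
lemma weight_cmp (hL : StLine) {c : ℂ} {k N : ℕ} (hc : ‖c‖ = 1) (hN : 1 ≤ N)
    {a b : ℝ} (ha : 1 ≤ a) :
    (Real.log a - 3) * SS c N (rho k N) a b ≤ 2 * Real.pi / N * SS c N (Zk k) a b ∧
    2 * Real.pi / N * SS c N (Zk k) a b ≤ Real.log b * SS c N (rho k N) a b := by
  rw [← SS_mul hL hc hN, ← SS_mul hL hc hN, ← SS_mul hL hc hN]
  constructor
  · apply SS_le hL hc hN
    intro t ht h1 h2
    obtain ⟨b1, b2, b3⟩ := lam_bounds hL ht.1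
    have h3 : Real.log a - 3 ≤ lam t := by
      have : Real.log a ≤ Real.log t := Real.log_le_log (by linarith) h1.le
      linarith
    have h4 : lam t * rho k N t = 2 * Real.pi / N * Zk k t := by
      rw [rho_eq]
      have : lam t ≠ 0 := by linarith
      field_simp
    rw [← h4]
    exact mul_le_mul_of_nonneg_right h3 (rho_nonneg hL k ht)
  · apply SS_le hL hc hN
    intro t ht h1 h2
    obtain ⟨b1, b2, b3⟩ := lam_bounds hL ht.1
    have h3 : lam t ≤ Real.log b := by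
      have : Real.log t ≤ Real.log b := Real.log_le_log (by linarith [ht.1]) h2
      linarith
    have h4 : lam t * rho k N t = 2 * Real.pi / N * Zk k t := by
      rw [rho_eq]
      have : lam t ≠ 0 := by linarith
      field_simp
    rw [← h4]
    exact mul_le_mul_of_nonneg_right h3 (rho_nonneg hL k ht)

theorem weights (hW : StWt) (hL : StLine) {c : ℂ} {k N : ℕ} (hc : ‖c‖ = 1)
    (hN : 1 ≤ N) (a : ℝ) :
    Tendsto (fun T => SS c N (rho k N) 0 T / (T * Real.log T ^ ((k : ℝ) ^ 2))) atTop (𝓝 a) ↔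
    Tendsto (fun T => 2 * Real.pi / N * SS c N (Zk k) 0 T / (T * Real.log T ^ ((k : ℝ) ^ 2 + 1)))
      atTop (𝓝 a) := by
  have hN0 : (0 : ℝ) < N := by exact_mod_cast hN
  have hr : ∀ t ∈ PP c N, 0 ≤ rho k N t := fun t ht => rho_nonneg hL k ht
  have hz : ∀ t ∈ PP c N, 0 ≤ Zk k t := fun t _ => Zk_nonneg k t
  apply hW a ((k : ℝ) ^ 2) (2 * Real.pi / N) 10 (by positivity) (by positivity)
    (fun T => SS c N (rho k N) 0 T) (fun T => SS c N (Zk k) 0 T)
  · intro x y hxy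
    exact SS_mono hL hc hN hr le_rfl hxy
  · intro x y hxy
    exact SS_mono hL hc hN hz le_rfl hxy
  · intro x; exact SS_nonneg hr _ _
  · intro x; exact SS_nonneg hz _ _
  · intro T hT
    have e1 : ∀ f, SS c N f 0 T - SS c N f 0 (T / 2) = SS c N f (T / 2) T := by
      intro f
      rw [SS_add hL hc hN f (a := 0) (b := T / 2) (d := T) (by linarith) (by linarith)]
      ring
    simp only [e1]
    obtain ⟨h1, h2⟩ := weight_cmp hL (k := k) hc hN (a := T / 2) (b := T) (by linarith)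
    refine ⟨le_trans ?_ h1, h2⟩
    apply mul_le_mul_of_nonneg_right _ (SS_nonneg hr _ _)
    rw [Real.log_div (by linarith) (by norm_num)]
    have := Real.log_two_lt_d9
    linarith

lemma Zk_cont (k : ℕ) : Continuous (Zk k) := by
  unfold Zk
  apply Continuous.pow
  apply Continuous.norm
  rw [continuous_iff_continuousAt]
  intro t
  have h : cp t ≠ 1 := by
    intro h
    have := congrArg Complex.re h
    simp [cp] at this
  have h1 : ContinuousAt riemannZeta (cp t) := (differentiableAt_riemannZeta h).continuousAt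
  have h2 : ContinuousAt cp t := by unfold cp; fun_prop
  exact ContinuousAt.comp (f := cp) (g := riemannZeta) h1 h2

/-- the asymptotic formula for the integral in terms of `muk` -/
lemma int_iff (hM : StMeas) {c : ℂ} {k N : ℕ} (hc : ‖c‖ = 1) (hk : 1 ≤ k) (hN : 1 ≤ N) (a : ℝ) :
    Tendsto (fun T => (∫ t in (0 : ℝ)..T, Zk k t) / (T * Real.log T ^ ((k : ℝ) ^ 2))) atTop (𝓝 a) ↔
    Tendsto (fun T => (muk k).real (Ioc 0 T) / (T * Real.log T ^ ((k : ℝ) ^ 2))) atTop (𝓝 a) := by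
  obtain ⟨-, -, -, -, -, m6, -⟩ := hM c k N hc hk hN
  have h0 : Tendsto (fun T : ℝ => T * Real.log T ^ ((k : ℝ) ^ 2)) atTop atTop := by
    apply Tendsto.atTop_mul_atTop₀ tendsto_id
    exact (tendsto_rpow_atTop (by
      have : (1 : ℝ) ≤ k := by exact_mod_cast hk
      positivity)).comp Real.tendsto_log_atTop
  have h1 : Tendsto (fun T : ℝ => (∫ t in (0 : ℝ)..100, Zk k t) / (T * Real.log T ^ ((k : ℝ) ^ 2)))
      atTop (𝓝 0) := h0.const_div_atTop _
  have hcont := Zk_cont k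
  have h2 : ∀ᶠ T : ℝ in atTop, (∫ t in (0 : ℝ)..T, Zk k t) / (T * Real.log T ^ ((k : ℝ) ^ 2)) =
      (∫ t in (0 : ℝ)..100, Zk k t) / (T * Real.log T ^ ((k : ℝ) ^ 2)) +
      (muk k).real (Ioc 0 T) / (T * Real.log T ^ ((k : ℝ) ^ 2)) := by
    filter_upwards [eventually_ge_atTop 100] with T hT
    rw [m6 T hT, ← add_div, intervalIntegral.integral_add_adjacent_intervals
      (hcont.intervalIntegrable _ _) (hcont.intervalIntegrable _ _)]
  constructor
  · intro h
    have h3 := h.sub h1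
    rw [sub_zero] at h3
    refine h3.congr' ?_
    filter_upwards [h2] with T hT
    rw [hT]; ring
  · intro h
    have h3 := h1.add h
    rw [zero_add] at h3
    refine h3.congr' ?_
    filter_upwards [h2] with T hT
    rw [hT]

/-- the equivalence of the two asymptotic formulas -/
theorem equiv (hT : StTaub) (hW : StWt) (hL : StLine) (hM : StMeas) (hQ : StQuad) (hS : StQS)
    {c : ℂ} {k N : ℕ} (hc : ‖c‖ = 1) (hk : 1 ≤ k) (hN : 1 ≤ N) (hkN : k ≤ N + 1) (a : ℝ) :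
    Tendsto (fun T => (∫ t in (0 : ℝ)..T, Zk k t) / (T * Real.log T ^ ((k : ℝ) ^ 2))) atTop (𝓝 a) ↔
    Tendsto (fun T => 2 * Real.pi / N * SS c N (Zk k) 0 T / (T * Real.log T ^ ((k : ℝ) ^ 2 + 1)))
      atTop (𝓝 a) := by
  rw [int_iff hM hc hk hN, ← weights hW hL hc hN]
  have hn := near hM hQ hS hc hk hN hkN
  obtain ⟨m1, m2, -, -, -, -, m7⟩ := hM c k N hc hk hN
  have e : ∀ T, (nuk c k N).real (Ioc 0 T) = SS c N (rho k N) 0 T := fun T => m7 0 T
  constructor
  · intro h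
    have := hT a ((k : ℝ) ^ 2) (qe k N) (by positivity) (qe_lt hk hN) _ _ m1 m2 hn h
    simpa only [e] using this
  · intro h
    apply hT a ((k : ℝ) ^ 2) (qe k N) (by positivity) (qe_lt hk hN) _ _ m2 m1 hn.symm
    simpa only [e] using h

end Pool.Agent.W188.QS
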