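import Pool.Agent.W188.QS.Stm5
import Pool.Agent.W188.QS.All

set_option autoImplicit false

open Complex MeasureTheory Set Filter Topology

namespace Pool.Agent.W188.QS

lemma muk_one (k : ℕ) : muk k (Iic 1) = 0 := by
  unfold muk
  rw [withDensity_apply _ measurableSet_Iic, Measure.restrict_restrict measurableSet_Iic]
  have : (Iic (1 : ℝ) ∩ Ioi 100) = ∅ := by
    ext t
    simp only [mem_inter_iff, mem_Iic, mem_Ioi, mem_empty_iff_false, iff_false, not_and, not_lt]
    intro h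
    linarith
  rw [this]
  simp

lemma nuk_one (c : ℂ) (k N : ℕ) : nuk c k N (Iic 1) = 0 := by
  unfold nuk
  rw [Measure.sum_apply _ measurableSet_Iic, ENNReal.tsum_eq_zero]
  intro p
  have hp : (p : ℝ) ∉ Iic (1 : ℝ) := by
    have := p.2.1
    simp only [mem_Iic, not_le]
    linarith
  rw [Measure.smul_apply, Measure.dirac_apply' _ measurableSet_Iic, indicator_of_notMem hp]
  simp

lemma exact_one {c : ℂ} {k N : ℕ} (hk : 1 ≤ k) (hN : k + 1 ≤ N) (hc : ‖c‖ = 1) :
    Exact1 (muk k) (nuk c k N) := by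
  have hN1 : 1 ≤ N := by omega
  obtain ⟨B1, T1, hB1, hT1, h1⟩ := a_quad k N hN1
  obtain ⟨C2, T2, hC2, h2⟩ := a_qb k N hk hN
  obtain ⟨-, -, m3, m4, -, -, -⟩ := a_meas c k N hc hk hN1
  obtain ⟨T3, h3⟩ := eventually_atTop.1 (ev_log_le B1)
  refine ⟨2 * C2 + 1, max (max T1 T2) (max T3 200), fun T hT => ?_⟩
  have hTT1 : T1 ≤ T := ((le_max_left _ _).trans (le_max_left _ _)).trans hT
  have hTT2 : T2 ≤ T := ((le_max_right _ _).trans (le_max_left _ _)).trans hT
  have hTT3 : T3 ≤ T := ((le_max_left _ _).trans (le_max_right _ _)).trans hT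
  have hT200 : 200 ≤ T := ((le_max_right _ _).trans (le_max_right _ _)).trans hT
  have hL : 1 ≤ Real.log T := by
    rw [Real.le_log_iff_exp_le (by linarith)]
    have := Real.exp_one_lt_d9
    linarith
  have hb : B1 * 1 * √(Real.log T) ≤ T := by
    refine le_trans ?_ (h3 T hTT3)
    have hs : 0 ≤ √(Real.log T) := Real.sqrt_nonneg _
    apply mul_le_mul_of_nonneg_right _ hs
    nlinarith
  have h4 := h1 c T 1 _ hc hTT1 le_rfl hb (fun a b ha hb => h2 c T 1 a b hc hTT2 le_rfl ha hb)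
  rw [m3 _ (gg_cont T 1) _ _ (by linarith) (by linarith), m4 _ (gg_cont T 1), abs_sub_comm]
  refine h4.trans (le_of_eq ?_)
  ring

end Pool.Agent.W188.QS
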