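import Mathlib
import Pool.Agent.W188.QS.Stm2

set_option autoImplicit false

/-! # Project QS, part 5: cumulative form of the sampling theorem (helper188) -/

open Complex MeasureTheory Set Filter Topology

namespace Pool.Agent.W188.QS

/-- the Gaussian averages of width `1` are equal up to `O(T^{-3})` -/
def Exact1 (μ ν : Measure ℝ) : Prop := ∃ C T₀ : ℝ, ∀ T : ℝ, T₀ ≤ T →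
  |∫ t in Ioo (T / 2) (3 * T / 2), gg T 1 t ∂μ - ∫ t in Ioo (T / 2) (3 * T / 2), gg T 1 t ∂ν| ≤
    C * T ^ (-(3 : ℝ))

/-- SHARP: sharp cut-off -/
def StSharp : Prop := ∀ (A : ℝ) (μ ν : Measure ℝ), (∀ x : ℝ, μ (Iic x) < ⊤) → (∀ x : ℝ, ν (Iic x) < ⊤) →
  μ (Iic 1) = 0 → ν (Iic 1) = 0 →
  (∀ᶠ T : ℝ in atTop, μ.real (Ioc 0 T) ≤ T ^ A) → (∀ᶠ T : ℝ in atTop, ν.real (Ioc 0 T) ≤ T ^ A) →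
  Exact1 μ ν →
  ∃ C T₀ : ℝ, ∀ T : ℝ, T₀ ≤ T → |ν.real (Ioc 0 T) - μ.real (Ioc 0 T)| ≤
    C * (1 + ∫ t in Ioo (T / 2) (3 * T / 2), gg T 1 t ∂μ)

/-- REM: transfer of error terms -/
def StRem : Prop := ∀ (A : ℝ) (μ ν : Measure ℝ), (∀ x : ℝ, μ (Iic x) < ⊤) → (∀ x : ℝ, ν (Iic x) < ⊤) →
  μ (Iic 1) = 0 → ν (Iic 1) = 0 →
  (∀ᶠ T : ℝ in atTop, μ.real (Ioc 0 T) ≤ T ^ A) → (∀ᶠ T : ℝ in atTop, ν.real (Ioc 0 T) ≤ T ^ A) →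
  Exact1 μ ν → ∀ (θ : ℝ) (R : ℝ → ℝ), 0 ≤ θ →
  (∀ ε : ℝ, 0 < ε → ∃ B : ℝ, ∀ T s : ℝ, 1 ≤ T → 0 ≤ s → s ≤ 1 → |R (T + s) - R T| ≤ B * T ^ (θ + ε)) →
  ((∀ ε : ℝ, 0 < ε → ∃ B : ℝ, ∀ T : ℝ, 1 ≤ T → |μ.real (Ioc 0 T) - R T| ≤ B * T ^ (θ + ε)) ↔
    (∀ ε : ℝ, 0 < ε → ∃ B : ℝ, ∀ T : ℝ, 1 ≤ T → |ν.real (Ioc 0 T) - R T| ≤ B * T ^ (θ + ε)))

/-- GROW -/
def StGrow : Prop := ∀ (c : ℂ) (k N : ℕ), ‖c‖ = 1 → 1 ≤ k → 1 ≤ N → k ≤ N + 1 →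
  ∃ A : ℝ, (∀ᶠ T : ℝ in atTop, (nuk c k N).real (Ioc 0 T) ≤ T ^ A) ∧
    ∀ᶠ T : ℝ in atTop, (muk k).real (Ioc 0 T) ≤ T ^ A

end Pool.Agent.W188.QS
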